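import Mathlib
import Pool.Agent.T9h24.Fu.Spec2

/-!
# FU, piece (H): hyperplanes of projective space

Author: helper43.
-/

set_option autoImplicit false

open MvPolynomial Module

namespace Pool.Agent.T9h43.Fu

open Pool.Agent.T9h24.Fu Pool.Agent.T9h24.Ft

theorem finrank_forms {k : Type*} [Field k] (n m : ℕ) :
    finrank k (homogeneousSubmodule (Fin (n + 1)) k m) = (n + m).choose n := by
  have h1 : homogeneousSubmodule (Fin (n + 1)) k m =
      restrictSupport k {d : Fin (n + 1) →₀ ℕ | d.degree = m} :=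
    homogeneousSubmodule_eq_finsupp_supported (R := k) (σ := Fin (n + 1)) m
  rw [h1, Module.finrank_eq_nat_card_basis
    (basisRestrictSupport k {d : Fin (n + 1) →₀ ℕ | d.degree = m})]
  have e : {d : Fin (n + 1) →₀ ℕ | d.degree = m} ≃ Sym (Fin (n + 1)) m :=
    (Equiv.subtypeEquivRight (fun d => Iff.rfl)).trans
      (Sym.equivNatSum (Fin (n + 1)) m).symm
  rw [Nat.card_congr e, Nat.card_eq_fintype_card, Sym.card_sym_eq_choose, Fintype.card_fin]
  have : n + 1 + m - 1 = n + m := by omega
  rw [this, Nat.choose_symm_add]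

variable {K : Type} [Field K] {n : ℕ}

theorem const_of_deg {Q : MvPolynomial (Fin (n + 1)) K} (h : Q.totalDegree = 0) :
    Q = C (coeff 0 Q) := totalDegree_eq_zero_iff_eq_C.1 h

theorem prime_lin {L : MvPolynomial (Fin (n + 1)) K} (hL : L.IsHomogeneous 1) (h0 : L ≠ 0) :
    Prime L := by
  rw [← UniqueFactorizationMonoid.irreducible_iff_prime]
  have hd : L.totalDegree = 1 := hL.totalDegree h0
  constructor
  · intro hu
    have h1 : L.totalDegree = 0 := by
      obtain ⟨u, rfl⟩ := hu
      have h2 : (u : MvPolynomial (Fin (n + 1)) K) * ((u⁻¹ : (MvPolynomial (Fin (n + 1)) K)ˣ) :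
          MvPolynomial (Fin (n + 1)) K) = 1 := u.mul_inv
      have h3 := congrArg totalDegree h2
      rw [totalDegree_mul_of_isDomain u.ne_zero u⁻¹.ne_zero, totalDegree_one] at h3
      omega
    omega
  · intro a b hab
    have ha : a ≠ 0 := by
      rintro rfl
      rw [zero_mul] at hab
      exact h0 hab
    have hb : b ≠ 0 := by
      rintro rfl
      rw [mul_zero] at hab
      exact h0 hab
    have h1 : a.totalDegree + b.totalDegree = 1 := by
      rw [← totalDegree_mul_of_isDomain ha hb, ← hab, hd]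
    have hunit : ∀ c : MvPolynomial (Fin (n + 1)) K, c ≠ 0 → c.totalDegree = 0 → IsUnit c := by
      intro c hc h2
      rw [const_of_deg h2] at hc ⊢
      refine IsUnit.map C (isUnit_iff_ne_zero.2 ?_)
      intro h3
      rw [h3, map_zero] at hc
      exact hc rfl
    rcases Nat.eq_zero_or_pos a.totalDegree with h | h
    · exact Or.inl (hunit a ha h)
    · exact Or.inr (hunit b hb (by omega))

theorem exists_not_dvd {L : MvPolynomial (Fin (n + 1)) K} (hL : L.IsHomogeneous 1) (h0 : L ≠ 0)
    (hn : 1 ≤ n) : ∃ l : Fin (n + 1), ¬ L ∣ X l := by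
  by_contra hcon
  push Not at hcon
  have hd : L.totalDegree = 1 := hL.totalDegree h0
  have key : ∀ l : Fin (n + 1), ∃ c : K, (X l : MvPolynomial (Fin (n + 1)) K) = L * C c ∧ c ≠ 0 := by
    intro l
    obtain ⟨Q, hQ⟩ := hcon l
    have hQ0 : Q ≠ 0 := by
      rintro rfl
      rw [mul_zero] at hQ
      exact X_ne_zero l hQ
    have h1 := congrArg totalDegree hQ
    rw [totalDegree_mul_of_isDomain h0 hQ0, totalDegree_X, hd] at h1
    have h2 : Q.totalDegree = 0 := by omega
    refine ⟨coeff 0 Q, ?_, ?_⟩
    · rw [← const_of_deg h2]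
      exact hQ
    · intro h3
      apply hQ0
      rw [const_of_deg h2, h3, map_zero]
  obtain ⟨c, hc, hc0⟩ := key 0
  obtain ⟨c', hc', hc0'⟩ := key (Fin.last n)
  have h1 : C c' * (X 0 : MvPolynomial (Fin (n + 1)) K) = C c * X (Fin.last n) := by
    rw [hc, hc']
    ring
  have h2 := congrArg (coeff (Finsupp.single (0 : Fin (n + 1)) 1)) h1
  rw [coeff_C_mul, coeff_C_mul, coeff_X, coeff_X, if_pos rfl, if_neg, mul_zero, mul_one] at h2
  · exact hc0' h2
  · intro h3
    have h4 := (Finsupp.single_left_injective (one_ne_zero)) h3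
    have h5 := congrArg Fin.val h4
    rw [Fin.val_last] at h5
    simp at h5
    omega

theorem sat_lin {L : MvPolynomial (Fin (n + 1)) K} (hL : L.IsHomogeneous 1) (h0 : L ≠ 0)
    (hn : 1 ≤ n) (e : ℕ) (P : MvPolynomial (Fin (n + 1)) K) :
    P ∈ sat (Ideal.span {L} ^ e) ↔ L ^ e ∣ P := by
  rw [Ideal.span_singleton_pow]
  constructor
  · rintro ⟨M, hM⟩
    obtain ⟨l, hl⟩ := exists_not_dvd hL h0 hn
    have h1 := hM l
    rw [Ideal.mem_span_singleton] at h1
    have hp := prime_lin hL h0
    exact hp.pow_dvd_of_dvd_mul_left e (fun h => hl (hp.dvd_of_dvd_pow h)) h1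
  · intro h
    refine ⟨0, fun l => ?_⟩
    rw [pow_zero, one_mul, Ideal.mem_span_singleton]
    exact h

theorem stHyp : StHyp := by
  intro n d e L hL h0 hn he
  have hLe : (L ^ e).IsHomogeneous e := by
    have := hL.pow e
    rwa [one_mul] at this
  have hLe0 : L ^ e ≠ 0 := pow_ne_zero e h0
  set f : MvPolynomial (Fin (n + 1)) (AlgebraicClosure ℚ) →ₗ[AlgebraicClosure ℚ]
      MvPolynomial (Fin (n + 1)) (AlgebraicClosure ℚ) :=
    LinearMap.mulLeft (AlgebraicClosure ℚ) (L ^ e) with hf
  have hfi : Function.Injective f := mul_right_injective₀ hLe0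
  have hmap : (homogeneousSubmodule (Fin (n + 1)) (AlgebraicClosure ℚ) d ⊓
      (sat (Ideal.span {L} ^ e)).restrictScalars (AlgebraicClosure ℚ) :
        Submodule (AlgebraicClosure ℚ) (MvPolynomial (Fin (n + 1)) (AlgebraicClosure ℚ))) =
      (homogeneousSubmodule (Fin (n + 1)) (AlgebraicClosure ℚ) (d - e)).map f := by
    ext P
    rw [Submodule.mem_inf, Submodule.restrictScalars_mem, sat_lin hL h0 hn, Submodule.mem_map,
      mem_homogeneousSubmodule]
    constructor
    · rintro ⟨hP, Q, rfl⟩
      refine ⟨∑ j ∈ Finset.range (Q.totalDegree + 1), if d = e + j then homogeneousComponent j Q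
        else 0, ?_, ?_⟩
      · refine Submodule.sum_mem _ fun j _ => ?_
        split_ifs with hj
        · have : d - e = j := by omega
          rw [this, mem_homogeneousSubmodule]
          exact homogeneousComponent_isHomogeneous j Q
        · exact Submodule.zero_mem _
      · show L ^ e * _ = L ^ e * Q
        have h1 : homogeneousComponent d (L ^ e * Q) = L ^ e * Q := by
          rw [homogeneousComponent_of_mem ((mem_homogeneousSubmodule _ _).2 hP), if_pos rfl]
        rw [← h1]
        conv_rhs => rw [← sum_homogeneousComponent Q]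
        rw [Finset.mul_sum, Finset.mul_sum, map_sum]
        refine Finset.sum_congr rfl fun j _ => ?_
        rw [homogeneousComponent_of_mem ((mem_homogeneousSubmodule _ _).2
          (hLe.mul (homogeneousComponent_isHomogeneous j Q)))]
        split_ifs with hj
        · rfl
        · rw [mul_zero]
    · rintro ⟨Q, hQ, rfl⟩
      refine ⟨?_, Q, rfl⟩
      have h1 := hLe.mul ((mem_homogeneousSubmodule _ _).1 hQ)
      have h2 : e + (d - e) = d := by omega
      rw [h2] at h1
      exact h1
  rw [hmap, ← (Submodule.equivMapOfInjective f hfi _).finrank_eq, finrank_forms]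
  congr 1
  omega

end Pool.Agent.T9h43.Fu
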