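import Mathlib
import Pool.Agent.T9h24.Fu.Spec
import Pool.Agent.T9h96.Ft.P1

/-!
# FU, piece (U3): the combinatorial lemma

Author: helper43.
-/

set_option autoImplicit false

open Finset Module

namespace Pool.Agent.T9h43.Fu

open Pool.Agent.T9h24.Fu Pool.Agent.T9h24.Ft

open Classical in
/-- the number of smaller values -/
noncomputable def rk {β : Type} [Fintype β] (f : β → ℝ) (b : β) : ℕ :=
  ((univ.image f).filter fun y => y < f b).card

theorem rk_le_iff {β : Type} [Fintype β] (f : β → ℝ) (b b' : β) :
    rk f b ≤ rk f b' ↔ f b ≤ f b' := by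
  classical
  unfold rk
  constructor
  · intro h
    by_contra hlt
    push Not at hlt
    refine absurd (card_lt_card (s := (univ.image f).filter fun y => y < f b')
      (t := (univ.image f).filter fun y => y < f b) ?_) (not_lt.2 h)
    rw [Finset.ssubset_iff_of_subset]
    · refine ⟨f b', ?_, ?_⟩
      · simp only [mem_filter, mem_image, mem_univ, true_and]
        exact ⟨⟨b', rfl⟩, hlt⟩
      · simp
    · intro y hy
      simp only [mem_filter] at hy ⊢
      exact ⟨hy.1, hy.2.trans hlt⟩
  · intro h
    refine card_le_card fun y hy => ?_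
    simp only [mem_filter] at hy ⊢
    exact ⟨hy.1, hy.2.trans_le h⟩

/-- a coordinate of a basis which is adapted to a subspace kills it unless the basis vector is in it -/
theorem coord_kills {K V : Type} [Field K] [AddCommGroup V] [Module K V] {N : ℕ}
    (B : Basis (Fin N) K V) (W : Submodule K V)
    (hW : W = Submodule.span K (B '' {a | B a ∈ W})) (c : Fin N) (hc : B c ∉ W) :
    ∀ v ∈ W, B.coord c v = 0 := by
  intro v hv
  rw [hW] at hv
  induction hv using Submodule.span_induction with
  | mem y hy =>
    obtain ⟨a, ha, rfl⟩ := hy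
    have hac : a ≠ c := by
      rintro rfl
      exact hc ha
    rw [Basis.coord_apply, Basis.repr_self, Finsupp.single_apply, if_neg hac]
  | zero => exact map_zero _
  | add y z _ _ h1 h2 => rw [map_add, h1, h2, add_zero]
  | smul a y _ h => rw [map_smul, h, smul_zero]

theorem stLemK (hU2 : StChoice) : StLemK := by
  classical
  intro K V _ _ _ _ N q d hN Vi hVa hV0 C hC hCu t ht hint φ hφ x hx
  -- the induction
  suffices H : ∀ R : Finset (Fin q), ∀ φ : Fin N → Module.Dual K V, LinearIndependent K φ →
      ∀ x : Fin N → ℝ,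
      (∀ l (b0 : Fin q → Fin (d + 1)), x l < sc (t l) R b0 →
        ∀ v ∈ C (up (t l) R (sc (t l) R b0)), φ l v = 0) →
      ∃ (o : Fin q → Fin N → ℕ) (Φ : Fin q → Fin N → Module.Dual K V),
        (∀ i, LinearIndependent K (Φ i)) ∧
        (∀ i l s, o i l < s → s ≤ d → ∀ v ∈ Vi i s, Φ i l v = 0) ∧
        ∑ l, ∑ i ∈ R, t l i * (o i l : ℝ) ≤ ∑ l, x l from H univ φ hφ x hx
  intro R
  induction R using Finset.induction_on with
  | empty =>
    intro φ hφ x hx
    refine ⟨fun _ _ => d, fun _ => φ, fun _ => hφ, fun i l s h1 h2 => absurd h1 (not_lt.2 h2), ?_⟩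
    simp only [Finset.sum_empty, Finset.sum_const_zero]
    refine Finset.sum_nonneg fun l _ => ?_
    by_contra hneg
    push Not at hneg
    have h1 : sc (t l) ∅ (fun _ => (0 : Fin (d + 1))) = 0 := by simp [sc]
    have h2 : up (d := d) (t l) ∅ 0 = univ := by
      unfold up
      simp [sc]
    have h3 := hx l (fun _ => 0) (by rw [h1]; exact hneg)
    rw [h1, h2, hCu] at h3
    apply hφ.ne_zero l
    ext v
    exact h3 v Submodule.mem_top
  | insert i R hi ih =>
    intro φ hφ x hx
    -- the filtrations
    set F : Fin N → ℕ → Submodule K V := fun l m =>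
      C (univ.filter fun b => m ≤ rk (sc (t l) R) b) with hF
    have hFa : ∀ l, Antitone (F l) := by
      intro l m m' hm
      refine hC fun b hb => ?_
      simp only [mem_filter, mem_univ, true_and] at hb ⊢
      exact hm.trans hb
    have hFC : ∀ l (b0 : Fin q → Fin (d + 1)), C (up (t l) R (sc (t l) R b0)) = F l (rk (sc (t l) R) b0) := by
      intro l b0
      simp only [hF]
      congr 1
      ext b
      simp only [up, mem_filter, mem_univ, true_and]
      exact (rk_le_iff _ _ _).symm
    choose B hB1 hB2 using fun l => Pool.Agent.T9h96.Ft.stTwo K V N hN (F l) (Vi i) (hFa l) (hVa i)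
    obtain ⟨c, hc1, hc2⟩ := hU2 K V N hN φ hφ B
    -- the orders
    have ho : ∀ l, ∃ o, o ≤ d ∧ B l (c l) ∈ Vi i o ∧ ∀ s, o < s → s ≤ d → B l (c l) ∉ Vi i s := by
      intro l
      refine ⟨Nat.findGreatest (fun s => B l (c l) ∈ Vi i s) d, Nat.findGreatest_le d,
        Nat.findGreatest_spec (P := fun s => B l (c l) ∈ Vi i s) (Nat.zero_le d) ?_, ?_⟩
      · rw [hV0]
        exact Submodule.mem_top
      · intro s h1 h2
        exact Nat.findGreatest_is_greatest h1 h2
    choose o ho1 ho2 ho3 using ho
    -- the scores
    have hb : ∀ l, ∃ b0 : Fin q → Fin (d + 1), B l (c l) ∈ C (up (t l) R (sc (t l) R b0)) ∧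
        ∀ b1 : Fin q → Fin (d + 1), sc (t l) R b0 < sc (t l) R b1 → B l (c l) ∉ C (up (t l) R (sc (t l) R b1)) := by
      intro l
      have hne : (univ.filter fun b0 : Fin q → Fin (d + 1) =>
          B l (c l) ∈ C (up (t l) R (sc (t l) R b0))).Nonempty := by
        refine ⟨fun _ => 0, ?_⟩
        simp only [mem_filter, mem_univ, true_and]
        have h1 : sc (t l) R (fun _ => (0 : Fin (d + 1))) = 0 := by simp [sc]
        have h2 : up (d := d) (t l) R 0 = univ := by
          unfold up
          rw [filter_eq_self]
          intro b _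
          exact sum_nonneg fun k _ => mul_nonneg (ht l k) (Nat.cast_nonneg _)
        rw [h1, h2, hCu]
        exact Submodule.mem_top
      obtain ⟨b0, hb0, hmax⟩ := exists_max_image _ (sc (t l) R) hne
      refine ⟨b0, (mem_filter.1 hb0).2, fun b1 hlt hmem => ?_⟩
      exact absurd (hmax b1 (mem_filter.2 ⟨mem_univ _, hmem⟩)) (not_le.2 hlt)
    choose b0 hb1 hb2 using hb
    have hle : ∀ l, sc (t l) R (b0 l) + t l i * (o l : ℝ) ≤ x l := by
      intro l
      by_contra hlt
      push Not at hlt
      have h1 := hint l R i hi (b0 l) (o l) (ho1 l) _ (hb1 l) (ho2 l)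
      have h2 : sc (t l) (insert i R) (Function.update (b0 l) i ⟨o l, by have := ho1 l; omega⟩) =
          sc (t l) R (b0 l) + t l i * (o l : ℝ) := by
        unfold sc
        rw [sum_insert hi, Function.update_self, add_comm]
        congr 1
        refine sum_congr rfl fun k hk => ?_
        rw [Function.update_of_ne]
        rintro rfl
        exact hi hk
      rw [← h2] at hlt h1
      exact hc1 l (hx l _ hlt _ h1)
    obtain ⟨o', Φ', h1, h2, h3⟩ := ih (fun l => (B l).coord (c l)) hc2
      (fun l => sc (t l) R (b0 l)) (by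
        intro l b1 hlt v hv
        rw [hFC] at hv
        refine coord_kills (B l) _ (hB1 l _) (c l) ?_ v hv
        rw [← hFC]
        exact hb2 l b1 hlt)
    refine ⟨fun k l => if k = i then o l else o' k l,
      fun k => if k = i then fun l => (B l).coord (c l) else Φ' k, ?_, ?_, ?_⟩
    · intro k
      by_cases hk : k = i
      · simp only [hk, if_true]
        exact hc2
      · simp only [hk, if_false]
        exact h1 k
    · intro k l s hs hsd v hv
      by_cases hk : k = i
      · subst hk
        simp only [if_true] at hs ⊢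
        exact coord_kills (B l) _ (hB2 l s) (c l) (ho3 l s hs hsd) v hv
      · simp only [hk, if_false] at hs ⊢
        exact h2 k l s hs hsd v hv
    · have h4 : ∀ l, ∑ k ∈ insert i R, t l k * (((if k = i then o l else o' k l : ℕ)) : ℝ) =
          t l i * (o l : ℝ) + ∑ k ∈ R, t l k * (o' k l : ℝ) := by
        intro l
        rw [sum_insert hi, if_pos rfl]
        congr 1
        refine sum_congr rfl fun k hk => ?_
        rw [if_neg]
        rintro rfl
        exact hi hk
      simp only [h4]
      rw [sum_add_distrib]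
      have h5 : ∑ l, (sc (t l) R (b0 l) + t l i * (o l : ℝ)) ≤ ∑ l, x l :=
        sum_le_sum fun l _ => hle l
      rw [sum_add_distrib] at h5
      linarith

end Pool.Agent.T9h43.Fu
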